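import Pool.Agent.H.MP_216555_lc.Good
import Pool.Agent.H.MP_216555_lc.q.QCore

/-!
# There are no large systems in which all valencies are large
-/

set_option linter.unusedSectionVars false

namespace MS216

open Finset

/-- Homogeneous systems without 3-cycles on at most `N` points, in which the valencies (over at most
`S` points) are at least `N / K ^ (|B| + 1)`. -/
structure PI.Thk {V : Type} [Fintype V] [DecidableEq V] {m : ℕ} (P : PI V m) (K S N : ℕ) :
    Prop where
  hm : S + 6 ≤ m
  hom : ∀ y z, P.Tp ∅ [y] [z]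
  anti : ∀ B : Finset V, ∀ w y z, w ≠ y → ¬ P.Tp B [w, y, z] [y, z, w]
  two : 2 ≤ Fintype.card V
  le : Fintype.card V ≤ N
  thick : ∀ B : Finset V, B.card ≤ S → ∀ y z, y ≠ z → P.Tp B [y] [z] →
    N ≤ K ^ (B.card + 1) * (fs fun z' => P.Tp B [y, z] [y, z']).card

section restrict

variable {V : Type} [Fintype V] [DecidableEq V] {m : ℕ}

/-- identity on `B` together with the image of `f` -/
private def tnUp (B C : Finset V) (f : Finset ({x // x ∈ C} × {x // x ∈ C})) :
    Finset (V × V) :=
  B.image (fun a => (a, a)) ∪ f.image (fun p => (p.1.val, p.2.val))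

private theorem tn_mem_up {B C : Finset V} {f : Finset ({x // x ∈ C} × {x // x ∈ C})} {a b : V} :
    (a, b) ∈ tnUp B C f ↔ (a = b ∧ a ∈ B) ∨ ∃ p ∈ f, p.1.val = a ∧ p.2.val = b := by
  unfold tnUp
  simp only [Finset.mem_union, Finset.mem_image, Prod.mk.injEq]
  constructor
  · rintro (⟨c, hc, rfl, rfl⟩ | ⟨p, hp, h1, h2⟩)
    · exact Or.inl ⟨rfl, hc⟩
    · exact Or.inr ⟨p, hp, h1, h2⟩
  · rintro (⟨rfl, h⟩ | ⟨p, hp, h1, h2⟩)
    · exact Or.inl ⟨a, h, rfl, rfl⟩
    · exact Or.inr ⟨p, hp, h1, h2⟩

private theorem tn_up_card (B C : Finset V) (f : Finset ({x // x ∈ C} × {x // x ∈ C})) :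
    (tnUp B C f).card ≤ B.card + f.card := by
  unfold tnUp
  exact (Finset.card_union_le _ _).trans (Nat.add_le_add Finset.card_image_le
    Finset.card_image_le)

private theorem tn_up_mono {B C : Finset V} {f g : Finset ({x // x ∈ C} × {x // x ∈ C})}
    (h : g ⊆ f) : tnUp B C g ⊆ tnUp B C f := by
  rintro ⟨a, b⟩ hab
  rw [tn_mem_up] at hab ⊢
  rcases hab with h1 | ⟨p, hp, h1⟩
  · exact Or.inl h1
  · exact Or.inr ⟨p, h hp, h1⟩

private theorem tn_up_idm (P : PI V m) {B C : Finset V} {A : Finset {x // x ∈ C}}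
    (hA : B.card + A.card ≤ m) : tnUp B C (A.image (fun a => (a, a))) ∈ P.I := by
  refine P.sub _ (P.idm (B ∪ A.image Subtype.val) ?_) _ ?_
  · exact ((Finset.card_union_le _ _).trans (Nat.add_le_add_left Finset.card_image_le _)).trans hA
  · rintro ⟨a, b⟩ hab
    rw [tn_mem_up] at hab
    rw [Finset.mem_image]
    rcases hab with ⟨rfl, h⟩ | ⟨p, hp, h1, h2⟩
    · exact ⟨a, Finset.mem_union_left _ h, rfl⟩
    · rw [Finset.mem_image] at hp
      obtain ⟨c, hc, rfl⟩ := hp
      refine ⟨c.val, Finset.mem_union_right _ (Finset.mem_image_of_mem _ hc), ?_⟩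
      rw [← h1, ← h2]

/-- the restriction of a system to a class `C` of an invariant equivalence relation over `B` -/
private def tnSub (P : PI V m) (B : Finset V) (hm : B.card + 6 ≤ m) (e : V → V → Prop)
    (he : P.InvEq B e) (C : Finset V) (y : V) (hC : ∀ x, x ∈ C ↔ e y x) :
    PI {x // x ∈ C} (m - B.card) where
  I := {f | tnUp B C f ∈ P.I}
  inj := by
    intro f hf p hp q hq
    have h := P.inj _ hf (p.1.val, p.2.val) (tn_mem_up.2 (Or.inr ⟨p, hp, rfl, rfl⟩))
      (q.1.val, q.2.val) (tn_mem_up.2 (Or.inr ⟨q, hq, rfl, rfl⟩))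
    rw [Subtype.ext_iff, Subtype.ext_iff]
    exact h
  idm := by
    intro A hA
    exact tn_up_idm P (by omega)
  sub := by
    intro f hf g hg
    exact P.sub _ hf _ (tn_up_mono hg)
  inv := by
    intro f hf
    refine P.sub _ (P.inv _ hf) _ ?_
    rintro ⟨a, b⟩ hab
    rw [tn_mem_up] at hab
    rw [Finset.mem_image]
    refine ⟨(b, a), tn_mem_up.2 ?_, rfl⟩
    rcases hab with ⟨rfl, h⟩ | ⟨p, hp, h1, h2⟩
    · exact Or.inl ⟨rfl, h⟩
    · rw [Finset.mem_image] at hp
      obtain ⟨q, hq, rfl⟩ := hp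
      exact Or.inr ⟨q, hq, h2, h1⟩
  comp := by
    intro f hf g hg h hh
    refine P.comp _ hf _ hg _ ?_
    rintro ⟨a, b⟩ hab
    rw [tn_mem_up] at hab
    rcases hab with ⟨rfl, h1⟩ | ⟨p, hp, h1, h2⟩
    · exact ⟨a, tn_mem_up.2 (Or.inl ⟨rfl, h1⟩), tn_mem_up.2 (Or.inl ⟨rfl, h1⟩)⟩
    · obtain ⟨c, hc1, hc2⟩ := hh p hp
      exact ⟨c.val, tn_mem_up.2 (Or.inr ⟨_, hc1, h1, rfl⟩),
        tn_mem_up.2 (Or.inr ⟨_, hc2, rfl, h2⟩)⟩
  ext := by
    intro f hf hfm
    rcases f.eq_empty_or_nonempty with rfl | ⟨⟨a, a'⟩, ha⟩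
    · refine ⟨1, fun w => ?_⟩
      have h1 := tn_up_idm P (B := B) (C := C) (A := {w}) (by rw [Finset.card_singleton]; omega)
      rw [Finset.image_singleton] at h1
      exact h1
    · obtain ⟨β, hβ⟩ := P.ext _ hf (lt_of_le_of_lt (tn_up_card _ _ _) (by omega))
      have hin : ∀ w, P.Tp B [a.val, w] [a'.val, β w] := by
        intro w
        refine ⟨rfl, P.sub _ (hβ w) _ ?_⟩
        rintro ⟨c, d⟩ hcd
        rw [mem_pr] at hcd
        rw [Finset.mem_insert, tn_mem_up]
        simp only [List.zip_cons_cons, List.zip_nil_right, List.mem_cons, List.not_mem_nil,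
          Prod.mk.injEq, or_false] at hcd
        rcases hcd with h1 | ⟨rfl, rfl⟩ | ⟨rfl, rfl⟩
        · exact Or.inr (Or.inl h1)
        · exact Or.inr (Or.inr ⟨_, ha, rfl, rfl⟩)
        · exact Or.inl rfl
      have hya : e y a.val := (hC _).1 a.2
      have hya' : e y a'.val := (hC _).1 a'.2
      have hCβ : ∀ w, w ∈ C ↔ β w ∈ C := by
        intro w
        rw [hC, hC]
        constructor
        · intro h1
          have h2 : e a.val w := he.equiv.trans (he.equiv.symm hya) h1
          exact he.equiv.trans hya' (he.inv _ _ _ _ (hin w) h2)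
        · intro h1
          have h2 : e a'.val (β w) := he.equiv.trans (he.equiv.symm hya') h1
          exact he.equiv.trans hya (he.inv _ _ _ _ (hin w).symm h2)
      refine ⟨β.subtypeEquiv hCβ, fun w => ?_⟩
      refine P.sub _ (hβ w.val) _ ?_
      rintro ⟨c, d⟩ hcd
      rw [tn_mem_up] at hcd
      rw [Finset.mem_insert, tn_mem_up]
      rcases hcd with h1 | ⟨p, hp, h1, h2⟩
      · exact Or.inr (Or.inl h1)
      · rw [Finset.mem_insert] at hp
        rcases hp with rfl | hp
        · left
          rw [← h1, ← h2]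
          rfl
        · exact Or.inr (Or.inr ⟨p, hp, h1, h2⟩)

private theorem tn_tp {P : PI V m} {B : Finset V} {hm : B.card + 6 ≤ m} {e : V → V → Prop}
    {he : P.InvEq B e} {C : Finset V} {y : V} {hC : ∀ x, x ∈ C ↔ e y x}
    {B' : Finset {x // x ∈ C}} {l l' : List {x // x ∈ C}} :
    (tnSub P B hm e he C y hC).Tp B' l l' ↔
      P.Tp (B ∪ B'.image Subtype.val) (l.map Subtype.val) (l'.map Subtype.val) := by
  have key : tnUp B C (pr B' l l') =
      pr (B ∪ B'.image Subtype.val) (l.map Subtype.val) (l'.map Subtype.val) := by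
    ext ⟨a, b⟩
    rw [tn_mem_up, mem_pr, List.zip_map, List.mem_map]
    constructor
    · rintro (⟨rfl, h⟩ | ⟨⟨p, q⟩, hp, h1, h2⟩)
      · exact Or.inl ⟨rfl, Finset.mem_union_left _ h⟩
      · rw [mem_pr] at hp
        rcases hp with ⟨rfl, h⟩ | h
        · dsimp only at h1 h2
          refine Or.inl ⟨h1.symm.trans h2, Finset.mem_union_right _ ?_⟩
          rw [← h1]
          exact Finset.mem_image_of_mem _ h
        · exact Or.inr ⟨(p, q), h, by rw [Prod.map_apply]; exact Prod.ext h1 h2⟩
    · rintro (⟨rfl, h⟩ | ⟨⟨p, q⟩, hp, h1⟩)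
      · rw [Finset.mem_union, Finset.mem_image] at h
        rcases h with h | ⟨c, hc, rfl⟩
        · exact Or.inl ⟨rfl, h⟩
        · exact Or.inr ⟨(c, c), mem_pr.2 (Or.inl ⟨rfl, hc⟩), rfl, rfl⟩
      · rw [Prod.map_apply, Prod.mk.injEq] at h1
        exact Or.inr ⟨(p, q), mem_pr.2 (Or.inr hp), h1.1, h1.2⟩
  unfold PI.Tp
  rw [← key, List.length_map, List.length_map]
  rfl

end restrict

/-- Restriction to a class of an invariant equivalence relation over the empty set: the valencies
do not change. -/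
theorem PI.Thk.sub {V : Type} [Fintype V] [DecidableEq V] {m : ℕ} {P : PI V m} {K S N : ℕ}
    (hP : P.Thk K S N) {e : V → V → Prop} (he : P.InvEq ∅ e) {y z : V} (hz : z ≠ y)
    (hez : e y z) : ∃ (W : Type) (_ : Fintype W) (_ : DecidableEq W) (Q : PI W m),
      Fintype.card W = (fs (e y)).card ∧ Q.Thk K S N := by
  have hC : ∀ x, x ∈ fs (e y) ↔ e y x := fun x => mem_fs
  have hm : (∅ : Finset V).card + 6 ≤ m := by
    have := hP.hm
    rw [Finset.card_empty]
    omega
  refine ⟨{x // x ∈ fs (e y)}, inferInstance, inferInstance,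
    tnSub P ∅ hm e he (fs (e y)) y hC, Fintype.card_coe _, ⟨hP.hm, ?_, ?_, ?_, ?_, ?_⟩⟩
  · intro a b
    refine tn_tp.2 ?_
    rw [Finset.image_empty, Finset.union_empty]
    exact hP.hom _ _
  · intro B' a b c hab ht
    exact hP.anti _ a.val b.val c.val (fun h => hab (Subtype.ext h)) (tn_tp.1 ht)
  · rw [Fintype.card_coe]
    exact Finset.one_lt_card.2 ⟨y, (hC _).2 (he.equiv.refl y), z, (hC _).2 hez, hz.symm⟩
  · refine le_trans ?_ hP.le
    rw [Fintype.card_coe]
    exact Finset.card_le_univ _
  · intro B' hB' a b hab ht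
    have ht' := tn_tp.1 ht
    have hcard : (∅ ∪ B'.image Subtype.val : Finset V).card = B'.card := by
      rw [Finset.empty_union, Finset.card_image_of_injective _ Subtype.val_injective]
    have h1 := hP.thick _ (by rw [hcard]; exact hB') a.val b.val
      (fun h => hab (Subtype.ext h)) ht'
    rw [hcard] at h1
    refine h1.trans (Nat.mul_le_mul_left _ ?_)
    refine le_trans ?_
      (Finset.card_image_le (f := (Subtype.val : {x // x ∈ fs (e y)} → V)))
    refine Finset.card_le_card fun c hc => ?_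
    rw [mem_fs] at hc
    have h2 : e a.val b.val := he.equiv.trans (he.equiv.symm ((hC _).1 a.2)) ((hC _).1 b.2)
    have h3 : P.Tp ∅ [a.val, b.val] [a.val, c] := by
      refine PI.Tp.mono hc rfl ?_
      intro p q hpq
      rw [mem_pr] at hpq ⊢
      rcases hpq with ⟨-, h4⟩ | h4
      · exact absurd h4 (Finset.notMem_empty _)
      · exact Or.inr h4
    have h4 : c ∈ fs (e y) :=
      (hC _).2 (he.equiv.trans ((hC _).1 a.2) (he.inv _ _ _ _ h3 h2))
    exact Finset.mem_image.2 ⟨⟨c, h4⟩, mem_fs.2 (tn_tp.2 hc), rfl⟩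

/-- The number which the valencies of the points have to exceed. -/
def thN (K : ℕ) : ℕ := K * (K ^ 2) ^ (K ^ 2) ^ (60 * SQ (K ^ 2))

/-- There are no thick systems. -/
theorem no_thick {K : ℕ} (hK : 2 ≤ K) {N : ℕ} (hN : thN K ≤ N) (n : ℕ) :
    ∀ (V : Type) [Fintype V] [DecidableEq V] (m : ℕ) (P : PI V m), Fintype.card V = n →
      P.Thk K (SQ (K ^ 2)) N → False := by
  induction n using Nat.strong_induction_on with
  | _ n ih =>
    intro V _ _ m P hV hP
    obtain ⟨S, hS⟩ : ∃ S, S = SQ (K ^ 2) := ⟨_, rfl⟩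
    have hS8 : 8 ≤ S := by rw [hS]; unfold SQ; omega
    have hPm := hP.hm
    rw [← hS] at hPm
    have hK2 : 2 ≤ K ^ 2 := by nlinarith
    -- the class of `e` contains the points `z'` with `Tp B [y, z] [y, z']`
    have hcls : ∀ B : Finset V, B.card ≤ S → ∀ e, P.InvEq B e → ∀ y z, z ≠ y → e y z →
        N ≤ K ^ (B.card + 1) * (fs (e y)).card := by
      intro B hB e he y z hz hez
      have h1 := hP.thick B (by rw [← hS]; exact hB) y z hz.symm (he.tp _ _ hez)
      refine h1.trans (Nat.mul_le_mul_left _ (Finset.card_le_card fun c hc => ?_))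
      rw [mem_fs] at hc ⊢
      exact he.inv _ _ _ _ hc hez
    -- the number of points
    have hbig : (K ^ 2) ^ (K ^ 2) ^ (60 * S) ≤ Fintype.card V := by
      obtain ⟨a, b, hab⟩ := Fintype.exists_pair_of_one_lt_card
        (show 1 < Fintype.card V from hP.two)
      have h1 := hP.thick ∅ (by simp) a b hab (hP.hom a b)
      rw [Finset.card_empty, zero_add, pow_one] at h1
      have h2 : K * (K ^ 2) ^ (K ^ 2) ^ (60 * S) ≤ K * Fintype.card V := by
        rw [hS]
        refine (hN.trans h1).trans (Nat.mul_le_mul_left _ ?_)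
        exact Finset.card_le_univ _
      exact Nat.le_of_mul_le_mul_left h2 (by omega)
    have hexp : 4 * S + 8 ≤ (K ^ 2) ^ (60 * S) := by
      have h1 : 60 * S < (K ^ 2) ^ (60 * S) := Nat.lt_pow_self (by omega)
      omega
    have hbig2 : (K ^ 2) ^ (4 * S + 8) ≤ Fintype.card V :=
      (Nat.pow_le_pow_right (by omega) hexp).trans hbig
    by_cases hprim : ∀ e, P.InvEq ∅ e → ∀ y z, z ≠ y → e y z →
        Fintype.card V ≤ (fs (e y)).card
    · -- the primitive case
      have hE : P.EnvQ (K ^ 2) (SQ (K ^ 2)) := by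
        rw [← hS]
        refine ⟨⟨hK2, hPm, hP.hom, fun B hB y z hyz ht => ?_, fun B _ => hP.anti B,
          fun B hB e he y z hz hez => ?_, hbig2⟩, hS8, hbig⟩
        · have h1 := hP.thick B (by rw [← hS]; exact hB) y z hyz ht
          by_contra hcon
          push Not at hcon
          have h2 : (fs fun z' => P.Tp B [y, z] [y, z']).card ≤ 1 := by
            rw [Finset.card_le_one]
            intro a ha b hb
            rw [mem_fs] at ha hb
            have ha' : a = z := by
              by_contra h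
              exact hcon a h ha
            have hb' : b = z := by
              by_contra h
              exact hcon b h hb
            rw [ha', hb']
          have h3 : N ≤ K ^ (S + 1) := by
            refine h1.trans ?_
            calc K ^ (B.card + 1) * (fs fun z' => P.Tp B [y, z] [y, z']).card
                ≤ K ^ (S + 1) * 1 := Nat.mul_le_mul
                  (Nat.pow_le_pow_right (by omega) (by omega)) h2
              _ = K ^ (S + 1) := mul_one _
          have h4 : K ^ (S + 1) < (K ^ 2) ^ (4 * S + 8) := by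
            rw [← pow_mul]
            exact Nat.pow_lt_pow_right (by omega) (by omega)
          have h5 := hP.le
          omega
        · rcases B.eq_empty_or_nonempty with rfl | hBne
          · rw [Finset.card_empty, pow_zero, one_mul]
            exact hprim e he y z hz hez
          · have h1 := hcls B hB e he y z hz hez
            refine (hP.le.trans h1).trans (Nat.mul_le_mul_right _ ?_)
            rw [← pow_mul]
            have := hBne.card_pos
            exact Nat.pow_le_pow_right (by omega) (by omega)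
      exact coreQ hE
    · -- the imprimitive case
      push Not at hprim
      obtain ⟨e, he, y, z, hz, hez, hlt⟩ := hprim
      obtain ⟨W, i1, i2, Q, hW, hQ⟩ := hP.sub he hz hez
      exact ih (fs (e y)).card (by omega) W m Q hW hQ

end MS216
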