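import Pool.Agent.H.MP_216555_lc.SGood
import Pool.Agent.H.MP_216555_lc.k.Thin

/-!
# Schemes in which all valencies are large
-/

set_option linter.unusedSectionVars false

namespace MS216

open Finset

variable {V : Type} [Fintype V] [DecidableEq V] {m : ℕ}

private theorem th_mem_graph {s : ℕ} {x y : Fin s ↪ V} {a b : V} :
    (a, b) ∈ graph x y ↔ ∃ i, x i = a ∧ y i = b := by
  simp [graph]

/-- put a point in front -/
private def thc {s : ℕ} (a : V) (x : Fin s ↪ V) (h : a ∉ Set.range x) : Fin (s + 1) ↪ V :=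
  ⟨Fin.cons a x, Fin.cons_injective_iff.2 ⟨h, x.injective⟩⟩

private theorem thc_zero {s : ℕ} (a : V) (x : Fin s ↪ V) (h : a ∉ Set.range x) :
    thc a x h 0 = a := rfl

private theorem thc_succ {s : ℕ} (a : V) (x : Fin s ↪ V) (h : a ∉ Set.range x) (i : Fin s) :
    thc a x h i.succ = x i := rfl

private theorem th_proj (X : MScheme V m) {s : ℕ} (hs : s + 1 ≤ m) (i : Fin (s + 1))
    (x : Fin (s + 1) ↪ V) : del i '' X.color x = X.color (del i x) := by
  apply Set.Subset.antisymm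
  · rintro _ ⟨u, hu, rfl⟩
    exact X.compatible s hs x u hu i
  · intro u hu
    have h1 := X.regular s hs i _ _ hu x
    have h2 : 0 < Nat.card {x' : Fin (s + 1) ↪ V // del i x' = del i x ∧ (X.rel (s + 1)) x x'} := by
      rw [Nat.card_pos_iff]
      exact ⟨⟨⟨x, rfl, (X.rel (s + 1)).refl x⟩⟩, inferInstance⟩
    rw [h1, Nat.card_pos_iff] at h2
    obtain ⟨⟨v, hv, hv'⟩⟩ := h2.1
    exact ⟨v, hv', hv⟩

/-- All fibres of a projection of a color have the same size. -/
private theorem th_count (X : MScheme V m) {s : ℕ} (hs : s + 1 ≤ m) (i : Fin (s + 1))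
    (x : Fin (s + 1) ↪ V) {M : ℕ}
    (hM : Nat.card {x' : Fin (s + 1) ↪ V // del i x' = del i x ∧ (X.rel (s + 1)) x x'} ≤ M) :
    (X.color x).ncard ≤ M * (del i '' X.color x).ncard := by
  classical
  obtain ⟨Q, hQ⟩ : ∃ Q : Finset (Fin (s + 1) ↪ V), ∀ u, u ∈ Q ↔ (X.rel (s + 1)) x u :=
    ⟨Finset.univ.filter fun u => (X.rel (s + 1)) x u, fun u => by simp⟩
  have h1 : X.color x = ↑Q := by
    ext u
    exact (hQ u).symm
  rw [h1, ← Finset.coe_image, Set.ncard_coe_finset, Set.ncard_coe_finset]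
  refine Finset.card_le_mul_card_image _ _ fun a ha => ?_
  obtain ⟨u, hu, rfl⟩ := Finset.mem_image.1 ha
  have hru : (X.rel s) (del i x) (del i u) := X.compatible s hs _ _ ((hQ u).1 hu) i
  refine le_trans ?_ hM
  rw [X.regular s hs i _ _ hru x, Nat.card_eq_fintype_card, Fintype.card_subtype]
  refine Finset.card_le_card fun w hw => ?_
  rw [Finset.mem_filter] at hw ⊢
  exact ⟨Finset.mem_univ _, hw.2, (hQ w).1 hw.1⟩

theorem MScheme.thick_toPI (X : MScheme V m) {K S : ℕ} (hS : S + 6 ≤ m)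
    (h : ∀ s ≤ S, ∀ x : Fin (s + 1 + 1) ↪ V, ∀ i j : Fin (s + 1 + 1), i < j →
      del i '' X.color x = del j '' X.color x →
      Fintype.card V * (del i '' X.color x).ncard ≤ K ^ (s + 1) * (X.color x).ncard)
    (B : Finset V) (hB : B.card ≤ S) (y z : V) (hyz : y ≠ z) (ht : X.toPI.Tp B [y] [z]) :
    Fintype.card V ≤ K ^ (B.card + 1) * (fs fun z' => X.toPI.Tp B [y, z] [y, z']).card := by
  classical
  have hf : pr B [y] [z] ∈ X.isos := ht.2
  have hinj := X.isos_inj hf
  have m1 : (y, z) ∈ pr B [y] [z] := mem_pr.2 (Or.inr (by simp))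
  have mb : ∀ b ∈ B, (b, b) ∈ pr B [y] [z] := fun b hb => mem_pr.2 (Or.inl ⟨rfl, hb⟩)
  have hyB : y ∉ B := fun hb => hyz ((hinj _ m1 _ (mb y hb)).1 rfl).symm
  have hzB : z ∉ B := fun hb => hyz ((hinj _ m1 _ (mb z hb)).2 rfl)
  obtain ⟨b, hb⟩ : ∃ b : Fin B.card ↪ V, ∀ v, v ∈ Set.range b ↔ v ∈ B := by
    refine ⟨B.equivFin.symm.toEmbedding.trans (Function.Embedding.subtype _), fun v => ?_⟩
    constructor
    · rintro ⟨i, rfl⟩
      exact (B.equivFin.symm i).2
    · intro hv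
      exact ⟨B.equivFin ⟨v, hv⟩, by simp⟩
  have hyb : y ∉ Set.range b := fun h0 => hyB ((hb y).1 h0)
  have hzb : z ∉ Set.range b := fun h0 => hzB ((hb z).1 h0)
  have hyzb : y ∉ Set.range (thc z b hzb) := by
    rintro ⟨i, hi⟩
    revert hi
    refine Fin.cases ?_ (fun j => ?_) i
    · rw [thc_zero]; exact fun h0 => hyz h0.symm
    · rw [thc_succ]; exact fun h0 => hyb ⟨j, h0⟩
  obtain ⟨x, hx⟩ : ∃ x : Fin (B.card + 1 + 1) ↪ V, x = thc y (thc z b hzb) hyzb := ⟨_, rfl⟩
  have d0 : del 0 x = thc z b hzb := by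
    ext i
    rw [hx]
    rfl
  have d1 : del 1 x = thc y b hyb := by
    ext i
    rw [hx]
    refine Fin.cases ?_ (fun j => ?_) i
    · rfl
    · rfl
  have hg1 : graph (thc y b hyb) (thc z b hzb) = pr B [y] [z] := by
    ext ⟨a, c⟩
    rw [th_mem_graph, mem_pr]
    simp only [List.zip_cons_cons, List.zip_nil_right, List.mem_cons, List.not_mem_nil,
      Prod.mk.injEq, or_false]
    constructor
    · rintro ⟨i, hi1, hi2⟩
      revert hi1 hi2
      refine Fin.cases ?_ (fun j => ?_) i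
      · rw [thc_zero, thc_zero]
        exact fun h1 h2 => Or.inr ⟨h1.symm, h2.symm⟩
      · rw [thc_succ, thc_succ]
        exact fun h1 h2 => Or.inl ⟨h1.symm.trans h2, (hb a).1 ⟨j, h1⟩⟩
    · rintro (⟨rfl, ha⟩ | ⟨rfl, rfl⟩)
      · obtain ⟨j, hj⟩ := (hb a).2 ha
        exact ⟨j.succ, hj, hj⟩
      · exact ⟨0, rfl, rfl⟩
  have hrel : (X.rel (B.card + 1)) (thc y b hyb) (thc z b hzb) := by
    rw [← X.isos_iff (by omega), hg1]
    exact hf
  have hs : B.card + 1 + 1 ≤ m := by omega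
  have hcol : del 0 '' X.color x = del 1 '' X.color x := by
    rw [th_proj X hs, th_proj X hs, d0, d1]
    ext u
    constructor
    · intro hu
      exact (X.rel _).trans hrel hu
    · intro hu
      exact (X.rel _).trans ((X.rel _).symm hrel) hu
  have htp : ∀ x', del 1 x' = del 1 x → (X.rel (B.card + 1 + 1)) x x' →
      X.toPI.Tp B [y, z] [y, x' 1] := by
    intro x' h1 h2
    have h3 : ∀ i : Fin (B.card + 1), x' ((1 : Fin (B.card + 2)).succAbove i) =
        x ((1 : Fin (B.card + 2)).succAbove i) := by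
      intro i
      exact DFunLike.congr_fun h1 i
    have hx0 : x' 0 = y := by
      have := h3 0
      rw [hx] at this
      exact this
    have hxs : ∀ j : Fin B.card, x' j.succ.succ = b j := by
      intro j
      have := h3 j.succ
      rw [hx] at this
      exact this
    have hg : graph x x' = pr B [y, z] [y, x' 1] := by
      ext ⟨a, c⟩
      rw [th_mem_graph, mem_pr]
      simp only [List.zip_cons_cons, List.zip_nil_right, List.mem_cons, List.not_mem_nil,
        Prod.mk.injEq, or_false]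
      constructor
      · rintro ⟨i, hi1, hi2⟩
        revert hi1 hi2
        refine Fin.cases ?_ (fun i' => ?_) i
        · rw [hx0, hx]
          exact fun h1 h2 => Or.inr (Or.inl ⟨h1.symm, h2.symm⟩)
        · refine Fin.cases ?_ (fun j => ?_) i'
          · intro h1 h2
            refine Or.inr (Or.inr ⟨?_, h2.symm⟩)
            rw [← h1, hx]
            rfl
          · rw [hxs, hx]
            intro h1 h2
            have h4 : b j = a := h1
            exact Or.inl ⟨h4.symm.trans h2, (hb a).1 ⟨j, h4⟩⟩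
      · rintro (⟨rfl, ha⟩ | ⟨rfl, rfl⟩ | ⟨rfl, rfl⟩)
        · obtain ⟨j, hj⟩ := (hb a).2 ha
          refine ⟨j.succ.succ, ?_, ?_⟩
          · rw [hx]; exact hj
          · rw [hxs]; exact hj
        · exact ⟨0, by rw [hx]; rfl, hx0⟩
        · exact ⟨1, by rw [hx]; rfl, rfl⟩
    refine ⟨rfl, ?_⟩
    rw [← hg]
    exact (X.isos_iff hs x x').2 h2
  obtain ⟨F, hF⟩ : ∃ F, F = fs fun z' => X.toPI.Tp B [y, z] [y, z'] := ⟨_, rfl⟩
  rw [← hF]
  have hfib : Nat.card {x' : Fin (B.card + 1 + 1) ↪ V // del 1 x' = del 1 x ∧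
      (X.rel (B.card + 1 + 1)) x x'} ≤ F.card := by
    rw [Nat.card_eq_fintype_card, ← Fintype.card_coe F]
    refine Fintype.card_le_of_injective (fun p => ⟨p.1 1, by
      rw [hF]; exact mem_fs.2 (htp p.1 p.2.1 p.2.2)⟩) ?_
    intro p q hpq
    have hpq' : p.1 1 = q.1 1 := congrArg Subtype.val hpq
    refine Subtype.ext (DFunLike.ext _ _ fun i => ?_)
    by_cases hi : i = 1
    · rw [hi]; exact hpq'
    · obtain ⟨i', rfl⟩ := Fin.exists_succAbove_eq hi
      exact DFunLike.congr_fun (p.2.1.trans q.2.1.symm) i'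
  have h1 := h B.card hB x 0 1 (by simp) hcol
  have h2 := th_count X hs 1 x hfib
  rw [hcol] at h1
  have hR : 0 < (del 1 '' X.color x).ncard := by
    rw [Set.ncard_pos (Set.toFinite _)]
    exact ⟨_, x, (X.rel _).refl x, rfl⟩
  have h3 : Fintype.card V * (del 1 '' X.color x).ncard ≤
      K ^ (B.card + 1) * F.card * (del 1 '' X.color x).ncard := by
    refine h1.trans ?_
    rw [mul_assoc]
    exact Nat.mul_le_mul_left _ h2
  exact Nat.le_of_mul_le_mul_right h3 hR

private theorem th_SQ {K : ℕ} (hK : 2 ≤ K) : SQ K ≤ 6 * K ^ 4 := by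
  obtain ⟨a, rfl⟩ := Nat.exists_eq_add_of_le hK
  unfold SQ phiQ Lp
  ring_nf
  nlinarith [Nat.zero_le a, Nat.zero_le (a ^ 2), Nat.zero_le (a ^ 3), Nat.zero_le (a ^ 4)]

private theorem th_N {K : ℕ} (hK : 2 ≤ K) : thN K ≤ K ^ K ^ (721 * K ^ 8) := by
  have hSK : SQ (K ^ 2) ≤ 6 * K ^ 8 := by
    have h1 := th_SQ (K := K ^ 2) (by nlinarith)
    rw [← pow_mul] at h1
    exact h1
  obtain ⟨A, hA⟩ : ∃ A, A = K ^ (720 * K ^ 8) := ⟨_, rfl⟩
  have h1 : (K ^ 2) ^ (60 * SQ (K ^ 2)) ≤ A := by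
    rw [hA, ← pow_mul]
    exact Nat.pow_le_pow_right (by omega) (by omega)
  have hA1 : 1 ≤ A := by
    rw [hA]
    exact Nat.one_le_pow _ _ (by omega)
  have h3 : 3 ≤ K ^ K ^ 8 := by
    have h4 : 2 ^ 8 ≤ K ^ 8 := Nat.pow_le_pow_left hK 8
    have h5 : K ^ 2 ≤ K ^ K ^ 8 := Nat.pow_le_pow_right (by omega) (by omega)
    nlinarith
  have h6 : K ^ (721 * K ^ 8) = A * K ^ K ^ 8 := by
    rw [hA, ← pow_add]
    congr 1
    ring
  have h7 : thN K ≤ K * (K ^ 2) ^ A := by
    unfold thN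
    exact Nat.mul_le_mul_left _ (Nat.pow_le_pow_right (by positivity) h1)
  refine h7.trans ?_
  rw [← pow_mul, ← pow_succ', h6]
  exact Nat.pow_le_pow_right (by omega) (by nlinarith)

/-- Colors of small valency in schemes with boundedly many levels. -/
theorem thinMain (K : ℕ) (hK : 2 ≤ K) (V : Type) [Fintype V] (m : ℕ) (X : MScheme V m)
    (hm : 6 * K ^ 8 + 6 ≤ m) (hn : K ^ K ^ (721 * K ^ 8) ≤ Fintype.card V) (h1 : X.Homogeneous)
    (h2 : X.NoThreeCycle) :
    ∃ s, s ≤ 6 * K ^ 8 ∧ ∃ (x : Fin (s + 2) ↪ V) (i j : Fin (s + 2)), i < j ∧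
      del i '' X.color x = del j '' X.color x ∧
      K ^ (s + 1) * (X.color x).ncard < Fintype.card V * (del i '' X.color x).ncard := by
  classical
  have hSK : SQ (K ^ 2) ≤ 6 * K ^ 8 := by
    have h1 := th_SQ (K := K ^ 2) (by nlinarith)
    rw [← pow_mul] at h1
    exact h1
  have hn2 : 2 ≤ Fintype.card V := by
    refine le_trans ?_ hn
    calc 2 ≤ K := hK
      _ = K ^ 1 := (pow_one K).symm
      _ ≤ K ^ K ^ (721 * K ^ 8) :=
        Nat.pow_le_pow_right (by omega) (Nat.one_le_pow _ _ (by omega))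
  by_contra hcon
  push Not at hcon
  refine no_thick hK ((th_N hK).trans hn) (Fintype.card V) V m X.toPI rfl
    ⟨by omega, X.hom_toPI (by omega) h1, X.anti_toPI h2, hn2, le_rfl, ?_⟩
  exact X.thick_toPI (by omega) fun s hs x i j hij hc => hcon s (by omega) x i j hij hc

end MS216
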